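import Pool.Agent.Q68.EA.Emb

/-!
# Project EA, job KL: local solubility
-/

set_option autoImplicit false

namespace Pool.Agent.Q161.EA

open WeierstrassCurve Polynomial

open scoped Classical

open Pool.Agent.W262.SH (QB Pt act IsCoc IsCob LocTriv shaCoc cob Sha)
open Pool.Agent.TH841.SH

section

variable {A B : ℚ} {L : Type} [Field L] [NumberField L] {ϑ : L}

/-- the embeddings into a larger field -/
theorem emb_lift (Ω : Type) [Field Ω] [Algebra ℚ Ω] [IsAlgClosed Ω] (ι : QB →ₐ[ℚ] Ω)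
    (e : L →ₐ[ℚ] Ω) : ∃ e' : L →ₐ[ℚ] QB, ι.comp e' = e := by
  have hinj : Function.Injective (fun e' : L →ₐ[ℚ] QB => ι.comp e') := by
    intro a b hab
    ext x
    have := DFunLike.congr_fun hab x
    exact ι.injective this
  have hcard : Fintype.card (L →ₐ[ℚ] QB) = Fintype.card (L →ₐ[ℚ] Ω) := by
    rw [AlgHom.card ℚ L Ω, AlgHom.card ℚ L QB]
  have hbij := (Fintype.bijective_iff_injective_and_card _).2 ⟨hinj, hcard⟩
  exact hbij.2 e

/-- the square root of `x (2 P) - a`, in another form -/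
noncomputable def gg (A : ℚ) {Ω : Type} [Field Ω] [Algebra ℚ Ω] (a : Ω) {W : WeierstrassCurve Ω} :
    W.toAffine.Point → Ω
  | 0 => 0
  | .some u v _ => ((u - a) ^ 2 - (3 * a ^ 2 + algebraMap ℚ Ω A)) / (2 * v)

theorem gg_gf {Ω : Type} [Field Ω] [Algebra ℚ Ω] {a b c : Ω}
    (h : IsR ((sh A B).baseChange Ω) a b c) (P : Pt (sh A B) Ω) :
    gg A a P = gf ((sh A B).baseChange Ω) a b c P := by
  have h1 : (a - b) * (a - c) = 3 * a ^ 2 + algebraMap ℚ Ω A := by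
    have e1 : algebraMap ℚ Ω A = a * b + a * c + b * c := h.h4
    have e2 : algebraMap ℚ Ω 0 = -(a + b + c) := h.h2
    rw [map_zero] at e2
    rw [e1]
    linear_combination (-(2 * a)) * e2
  rcases P with _ | ⟨u, v, hn⟩
  · rfl
  · show ((u - a) ^ 2 - (3 * a ^ 2 + algebraMap ℚ Ω A)) / (2 * v) =
      ((u - a) ^ 2 - (a - b) * (a - c)) / (2 * v)
    rw [h1]

theorem act_gg {Ω : Type} [Field Ω] [Algebra ℚ Ω] (φ : Ω →ₐ[ℚ] Ω) (a : Ω) (P : Pt (sh A B) Ω) :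
    φ (gg A a P) = gg A (φ a) (act (sh A B) φ P) := by
  rcases P with _ | ⟨u, v, h⟩
  · exact map_zero φ
  · rw [act_some]
    show φ (((u - a) ^ 2 - (3 * a ^ 2 + algebraMap ℚ Ω A)) / (2 * v)) =
      ((φ u - φ a) ^ 2 - (3 * (φ a) ^ 2 + algebraMap ℚ Ω A)) / (2 * φ v)
    simp only [map_div₀, map_sub, map_pow, map_mul, map_ofNat, map_add, AlgHom.commutes]

/-- divisibility by the cubic -/
theorem dvd_of (hC : Cub A B L ϑ) (K Ω : Type) [Field K] [Field Ω] [CharZero K] [Algebra ℚ K]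
    [Algebra K Ω] [Algebra ℚ Ω] [IsScalarTower ℚ K Ω] [IsAlgClosed Ω] (Q : K[X])
    (hQ : ∀ e : L →ₐ[ℚ] Ω, aeval (e ϑ) Q = 0) :
    (X ^ 3 + C A * X + C B : ℚ[X]).map (Rat.castHom K) ∣ Q := by
  have : CharZero Ω := algebraRat.charZero Ω
  obtain ⟨e⟩ : Nonempty (L →ₐ[ℚ] Ω) := ⟨IsAlgClosed.lift⟩
  obtain ⟨e', e'', h1, h2, h3, -⟩ := embs hC Ω e
  have n1 : e ϑ ≠ e' ϑ := fun h => h1 (emb_inj hC Ω h)
  have n2 : e ϑ ≠ e'' ϑ := fun h => h2 (emb_inj hC Ω h)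
  have n3 : e' ϑ ≠ e'' ϑ := fun h => h3 (emb_inj hC Ω h)
  have hR := emb_isR hC Ω h1 h2 h3
  rw [← Polynomial.map_dvd_map' (algebraMap K Ω), Polynomial.map_map]
  have hcomp : (algebraMap K Ω).comp (Rat.castHom K) = algebraMap ℚ Ω := Subsingleton.elim _ _
  rw [hcomp]
  have e1 : algebraMap ℚ Ω A = e ϑ * e' ϑ + e ϑ * e'' ϑ + e' ϑ * e'' ϑ := hR.h4
  have e2 : algebraMap ℚ Ω 0 = -(e ϑ + e' ϑ + e'' ϑ) := hR.h2
  have e3 : algebraMap ℚ Ω B = -(e ϑ * e' ϑ * e'' ϑ) := hR.h6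
  rw [map_zero] at e2
  have hfac : (X ^ 3 + C A * X + C B : ℚ[X]).map (algebraMap ℚ Ω) =
      (X - C (e ϑ)) * (X - C (e' ϑ)) * (X - C (e'' ϑ)) := by
    simp only [Polynomial.map_add, Polynomial.map_mul, Polynomial.map_pow, Polynomial.map_X,
      Polynomial.map_C]
    rw [e1, e3]
    have h5 : C (e ϑ + e' ϑ + e'' ϑ) = (0 : Polynomial Ω) := by
      rw [← neg_neg (e ϑ + e' ϑ + e'' ϑ), ← e2, neg_zero, C_0]
    simp only [C_add, C_mul, C_neg] at h5 ⊢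
    linear_combination (X ^ 2) * h5
  rw [hfac]
  have hroot : ∀ x : L →ₐ[ℚ] Ω, (X - C (x ϑ)) ∣ Q.map (algebraMap K Ω) := by
    intro x
    rw [Polynomial.dvd_iff_isRoot, Polynomial.IsRoot.def, Polynomial.eval_map_algebraMap]
    exact hQ x
  have cop : ∀ {a b : Ω}, a ≠ b → IsCoprime (X - C a) (X - C b) := fun h =>
    Polynomial.isCoprime_X_sub_C_of_isUnit_sub (IsUnit.mk0 _ (sub_ne_zero.2 h))
  exact (IsCoprime.mul_left (cop n2) (cop n3)).mul_dvd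
    ((cop n1).mul_dvd (hroot e) (hroot e')) (hroot e'')

end

section

variable {A B : ℚ} {L : Type} [Field L] [NumberField L] {ϑ : L}
variable {K Ω : Type} [Field K] [Field Ω] [CharZero K] [Algebra ℚ K] [Algebra K Ω] [Algebra ℚ Ω]
  [IsScalarTower ℚ K Ω] [IsAlgClosed Ω] [IsGalois K Ω]

/-- the descent step -/
theorem kl_step (hI : S_ITP) (hC : Cub A B L ϑ) (f : (QB ≃ₐ[ℚ] QB) → Pt (sh A B) QB)
    (γ : (L →ₐ[ℚ] QB) → QB) (δ : L) (hK : KD (sh A B) ϑ f γ δ) (ι : QB →ₐ[ℚ] Ω)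
    (G : (L →ₐ[ℚ] Ω) → Ω)
    (hG : ∀ (τ : Ω ≃ₐ[K] Ω) (σ : QB ≃ₐ[ℚ] QB),
      (τ.toAlgHom.restrictScalars ℚ).comp ι = ι.comp σ.toAlgHom → ∀ e : L →ₐ[ℚ] Ω,
      τ (G ((τ.symm.toAlgHom.restrictScalars ℚ).comp e)) =
        sg ((sh A B).baseChange Ω) (e ϑ) (act (sh A B) ι (f σ)) * G e)
    (d : ℚ[X]) (hd : aeval ϑ d = δ) (x w : K)
    (hxw : ∀ e : L →ₐ[ℚ] Ω, algebraMap K Ω x - algebraMap K Ω w * e ϑ = G e ^ 2) :
    ∃ g : K[X], (X ^ 3 + C A * X + C B : ℚ[X]).map (Rat.castHom K) ∣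
      C x - C w * X - d.map (Rat.castHom K) * g ^ 2 := by
  choose r hr using emb_lift (L := L) Ω ι
  have hrv : ∀ (e : L →ₐ[ℚ] Ω) (z : L), ι (r e z) = e z := fun e z =>
    DFunLike.congr_fun (hr e) z
  have hγ0 : ∀ e, ι (γ (r e)) ≠ 0 := fun e h => hK.ne (r e) ((map_eq_zero ι).1 h)
  obtain ⟨g, hg⟩ := hI A B L ϑ hC K Ω (fun e => G e / ι (γ (r e))) (by
    intro τ e
    obtain ⟨σ, hσ⟩ := exists_restr ι τ
    have hcomm : ∀ z : QB, τ (ι z) = ι (σ z) := fun z => DFunLike.congr_fun hσ z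
    have h1 : r ((τ.symm.toAlgHom.restrictScalars ℚ).comp e) = σ.symm.toAlgHom.comp (r e) := by
      ext z
      apply ι.injective
      show ι (r ((τ.symm.toAlgHom.restrictScalars ℚ).comp e) z) = ι (σ.symm (r e z))
      rw [hrv]
      show τ.symm (e z) = ι (σ.symm (r e z))
      apply τ.injective
      rw [τ.apply_symm_apply, hcomm, σ.apply_symm_apply, hrv]
    show τ (G ((τ.symm.toAlgHom.restrictScalars ℚ).comp e) /
      ι (γ (r ((τ.symm.toAlgHom.restrictScalars ℚ).comp e)))) = G e / ι (γ (r e))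
    rw [h1, map_div₀, hcomm, hG τ σ hσ, hK.gal, map_mul]
    have h2 : sg ((sh A B).baseChange Ω) (e ϑ) (act (sh A B) ι (f σ)) =
        ι (sg ((sh A B).baseChange QB) (r e ϑ) (f σ)) := by
      rw [← sg_act, hrv]
    rw [h2]
    have h3 : ι (sg ((sh A B).baseChange QB) (r e ϑ) (f σ)) ≠ 0 := by
      rcases sg_or ((sh A B).baseChange QB) (r e ϑ) (f σ) with h | h
      · rw [h, map_one]
        exact one_ne_zero
      · rw [h, map_neg, map_one]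
        exact neg_ne_zero.2 one_ne_zero
    exact mul_div_mul_left _ _ h3)
  refine ⟨g, dvd_of hC K Ω _ (fun e => ?_)⟩
  have hcomp : (algebraMap K Ω).comp (Rat.castHom K) = algebraMap ℚ Ω := Subsingleton.elim _ _
  have h4 : aeval (e ϑ) (d.map (Rat.castHom K)) = e δ := by
    rw [aeval_def, eval₂_map, hcomp, ← aeval_def, ← hd]
    exact (Polynomial.aeval_algHom_apply e ϑ d)
  have h5 : e δ = ι (γ (r e)) ^ 2 := by
    rw [← map_pow, hK.sq, hrv]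
  rw [map_sub, map_sub, map_mul, map_mul, map_pow, aeval_C, aeval_C, aeval_X, hg, h4, h5, hxw]
  have := hγ0 e
  field_simp
  ring

/-- the local step -/
theorem kl_main (hI : S_ITP) (hC : Cub A B L ϑ) (f : (QB ≃ₐ[ℚ] QB) → Pt (sh A B) QB)
    (γ : (L →ₐ[ℚ] QB) → QB) (δ : L) (hf : ∀ σ, f σ + f σ = 0) (hK : KD (sh A B) ϑ f γ δ)
    (hloc : ∀ ι : QB →ₐ[ℚ] Ω, ∃ P : Pt (sh A B) Ω, ∀ (τ : Ω ≃ₐ[K] Ω) (σ : QB ≃ₐ[ℚ] QB),
      (τ.toAlgHom.restrictScalars ℚ).comp ι = ι.comp σ.toAlgHom →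
      act (sh A B) ι (f σ) = act (sh A B) (τ.toAlgHom.restrictScalars ℚ) P - P)
    (d : ℚ[X]) (hd : aeval ϑ d = δ) : ∃ (x w : K) (g : K[X]), (w = 1 ∨ (w = 0 ∧ x = 1)) ∧
      (X ^ 3 + C A * X + C B : ℚ[X]).map (Rat.castHom K) ∣
        C x - C w * X - d.map (Rat.castHom K) * g ^ 2 := by
  obtain ⟨ι⟩ := exists_emb Ω
  obtain ⟨P, hP⟩ := hloc ι
  have hcz : CharZero Ω := algebraRat.charZero _
  have h2 : (2 : Ω) ≠ 0 := two_ne_zero
  have hTT : ∀ σ, act (sh A B) ι (f σ) + act (sh A B) ι (f σ) = 0 := by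
    intro σ
    rw [← map_add, hf, map_zero]
  have hτP : ∀ (τ : Ω ≃ₐ[K] Ω)
      (σ : QB ≃ₐ[ℚ] QB), (τ.toAlgHom.restrictScalars ℚ).comp ι = ι.comp σ.toAlgHom →
      act (sh A B) (τ.toAlgHom.restrictScalars ℚ) P = P + act (sh A B) ι (f σ) := by
    intro τ σ h
    rw [hP τ σ h]
    abel
  have hτe : ∀ (τ : Ω ≃ₐ[K] Ω)
      (e : L →ₐ[ℚ] Ω) (z : L),
      (τ.toAlgHom.restrictScalars ℚ) (((τ.symm.toAlgHom.restrictScalars ℚ).comp e) z) = e z := by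
    intro τ e z
    exact τ.apply_symm_apply _
  by_cases hPP : P + P = 0
  · -- case 2
    obtain ⟨g, hg⟩ := kl_step (K := K) hI hC f γ δ hK ι
      (fun e => sg ((sh A B).baseChange (Ω)) (e ϑ) P) (by
        intro τ σ hσ e
        have h1 := sg_act (sh A B) (τ.toAlgHom.restrictScalars ℚ)
          (((τ.symm.toAlgHom.restrictScalars ℚ).comp e) ϑ) P
        rw [hτe, hτP τ σ hσ, sg_add' hC _ hPP (hTT σ)] at h1
        show τ (sg ((sh A B).baseChange (Ω))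
          (((τ.symm.toAlgHom.restrictScalars ℚ).comp e) ϑ) P) = _
        rw [mul_comm (sg _ _ P)] at h1
        exact h1.symm) d hd 1 0 (by
        intro e
        rw [map_one, map_zero, zero_mul, sub_zero, pow_two]
        exact (sg_mul_self _ _ _).symm)
    exact ⟨1, 0, g, Or.inr ⟨rfl, rfl⟩, hg⟩
  · -- case 1
    rcases P with _ | ⟨u, v, hn⟩
    · exact absurd (add_zero _) hPP
    have hv : v ≠ 0 := by
      intro hv
      obtain ⟨e⟩ : Nonempty (L →ₐ[ℚ] Ω) := ⟨IsAlgClosed.lift⟩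
      obtain ⟨e', e'', q1, q2, q3, -⟩ := embs hC _ e
      exact hPP (((emb_isR hC _ q1 q2 q3).add_self h2 hn).2 hv)
    -- the double
    obtain ⟨X0, Y0, hn0, hdbl⟩ : ∃ (X0 Y0 : Ω)
        (hn0 : ((sh A B).baseChange (Ω)).toAffine.Nonsingular X0 Y0),
        (Affine.Point.some u v hn : Pt (sh A B) (Ω)) + .some u v hn =
          .some X0 Y0 hn0 := by
      obtain ⟨e⟩ : Nonempty (L →ₐ[ℚ] Ω) := ⟨IsAlgClosed.lift⟩
      obtain ⟨e', e'', q1, q2, q3, -⟩ := embs hC _ e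
      obtain ⟨X0, Y0, hn0, h5, -⟩ := (emb_isR hC _ q1 q2 q3).dup h2 hn hv
      exact ⟨X0, Y0, hn0, h5⟩
    have hXg : ∀ e : L →ₐ[ℚ] Ω, X0 - e ϑ = gg A (e ϑ)
        (Affine.Point.some u v hn : Pt (sh A B) (Ω)) ^ 2 := by
      intro e
      obtain ⟨e', e'', q1, q2, q3, -⟩ := embs hC _ e
      have hR := emb_isR hC _ q1 q2 q3
      obtain ⟨X1, Y1, hn1, h5, h6⟩ := hR.dup h2 hn hv
      rw [hdbl, Affine.Point.some.injEq] at h5
      rw [gg_gf hR, h5.1]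
      exact h6
    have hfix : ∀ τ : Ω ≃ₐ[K] Ω, τ X0 = X0 := by
      intro τ
      obtain ⟨σ, hσ⟩ := exists_restr ι τ
      have h6 : act (sh A B) (τ.toAlgHom.restrictScalars ℚ) (.some X0 Y0 hn0) =
          .some X0 Y0 hn0 := by
        rw [← hdbl, map_add, hτP τ σ hσ]
        have h8 : ∀ S T : Pt (sh A B) (Ω),
          (S + T) + (S + T) = (S + S) + (T + T) := fun S T => by abel
        rw [h8, hTT, add_zero]
      rw [act_some, Affine.Point.some.injEq] at h6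
      exact h6.1
    obtain ⟨x, hx⟩ := fix_mem (K := K) X0 hfix
    obtain ⟨g, hg⟩ := kl_step (K := K) hI hC f γ δ hK ι
      (fun e => gg A (e ϑ) (Affine.Point.some u v hn : Pt (sh A B) (Ω))) (by
        intro τ σ hσ e
        have h1 := act_gg (A := A) (B := B) (τ.toAlgHom.restrictScalars ℚ)
          (((τ.symm.toAlgHom.restrictScalars ℚ).comp e) ϑ) (.some u v hn)
        rw [hτe, hτP τ σ hσ] at h1
        show (τ.toAlgHom.restrictScalars ℚ) (gg A (((τ.symm.toAlgHom.restrictScalars ℚ).comp e) ϑ)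
          (Affine.Point.some u v hn : Pt (sh A B) (Ω))) = _
        rw [h1]
        obtain ⟨e', e'', q1, q2, q3, -⟩ := embs hC _ e
        have hR := emb_isR hC _ q1 q2 q3
        obtain ⟨u', v', hn', w1, w2, w3, w4⟩ := hR.sign h2 (fun h => q1 (emb_inj hC _ h))
          (fun h => q2 (emb_inj hC _ h)) (fun h => q3 (emb_inj hC _ h)) hn hv (hTT σ)
        rw [gg_gf hR, gg_gf hR, w1]
        unfold sg
        by_cases hX : IsX ((sh A B).baseChange (Ω)) (e ϑ)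
          (act (sh A B) ι (f σ))
        · rw [if_pos hX, one_mul, w3 hX]
        · rw [if_neg hX, w4 hX]
          ring) d hd x 1 (by
        intro e
        rw [map_one, one_mul, hx]
        exact hXg e)
    exact ⟨x, 1, g, Or.inl rfl, hg⟩

end

theorem kl_K (hI : S_ITP) {A B : ℚ} {L : Type} [Field L] [NumberField L] {ϑ : L}
    (hC : Cub A B L ϑ) (K : Type) [Field K] [CharZero K] [Algebra ℚ K]
    (f : (QB ≃ₐ[ℚ] QB) → Pt (sh A B) QB)
    (γ : (L →ₐ[ℚ] QB) → QB) (δ : L) (hf : ∀ σ, f σ + f σ = 0) (hK : KD (sh A B) ϑ f γ δ)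
    (hloc : LocTriv (sh A B) K f)
    (d : ℚ[X]) (hd : aeval ϑ d = δ) : ∃ (x w : K) (g : K[X]), (w = 1 ∨ (w = 0 ∧ x = 1)) ∧
      (X ^ 3 + C A * X + C B : ℚ[X]).map (Rat.castHom K) ∣
        C x - C w * X - d.map (Rat.castHom K) * g ^ 2 :=
  @kl_main A B L _ _ ϑ K (AlgebraicClosure K) _ _ _ _ _ (AlgebraicClosure.instAlgebra K)
    inferInstance _ _ hI hC f γ δ hf hK hloc d hd

theorem kl (hI : S_ITP) : S_KL := by
  intro A B L _ _ ϑ hC f γ δ hf hK p _ hloc d hd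
  exact kl_K hI hC ℚ_[p] f γ δ hf hK hloc d hd

end Pool.Agent.Q161.EA
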